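import Pool.Agent.H48.PV.RegU

/-!
# Plane symmetric solutions of the non-cutoff Boltzmann equation, all very hard potentials

Unconditional: for every classical solution which depends on `x` only through `ν · x` (any fixed direction `ν ≠ 0`) the four
hydrodynamic bounds hold with constants depending on the initial value and the kernel only, not on `T`. No smallness, every
kernel of the class (B) with `γ > 1`, `γ + 2s < 2` (in dimension two `γ > 1 + 2s`).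
-/

set_option autoImplicit false

open MeasureTheory Set Pool.Agent.H25.Kin Pool.Agent.H82.BK Pool.Agent.H93.CM Pool.Agent.H48.PL

namespace Pool.Agent.Results.MP_c15324_an.PlaneSymmetric

theorem result {d : ℕ} (hd : 2 ≤ d) {s γ : ℝ} (hs : 0 < s) (h1 : 1 < γ) (h2 : γ + 2 * s < 2)
    (h3 : 3 ≤ d ∨ 1 + 2 * s < γ) {b : ℝ → ℝ} (hb : IsKernel d s b) {ν : Vec d} (hν : ν ≠ 0) :
    (∀ F₀ : Vec d → Vec d → ℝ,
      (∃ (U : ℕ → ℝ) (M₀ : ℝ), ∀ (T : ℝ) (f : ℝ → Vec d → Vec d → ℝ), IsBoltzmannSol γ b T f →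
        (∀ t ∈ Ico 0 T, ∀ x y v, ∑ i, ν i * x i = ∑ i, ν i * y i → f t x v = f t y v) → f 0 = F₀ →
        ∀ t ∈ Ico 0 T, ∀ x,
          (∀ (N : ℕ) (v : Vec d), (1 + ‖v‖) ^ N * f t x v ≤ U N) ∧ (∫ v, f t x v ≤ M₀) ∧
          (∫ v, f t x v * nsq v ≤ M₀) ∧ ∫ v, f t x v * Real.log (f t x v) ≤ M₀) ∧
      ((∀ x, 0 < ∫ v, F₀ x v) → ∃ m₀ > 0, ∃ M₀ : ℝ, ∀ (T : ℝ) (f : ℝ → Vec d → Vec d → ℝ),
        IsBoltzmannSol γ b T f →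
        (∀ t ∈ Ico 0 T, ∀ x y v, ∑ i, ν i * x i = ∑ i, ν i * y i → f t x v = f t y v) → f 0 = F₀ →
          ∀ t ∈ Ico 0 T, ∀ x, HydroBounds m₀ M₀ M₀ M₀ (f t x))) ∧
    ∀ p : ℕ, (d : ℝ) + γ + 4 ≤ 2 * p → ∀ m > 0, ∀ M : ℝ, ∃ K : ℝ, 0 ≤ K ∧
      ∀ (T : ℝ) (f : ℝ → Vec d → Vec d → ℝ), IsBoltzmannSol γ b T f →
      (∀ t ∈ Ico 0 T, ∀ x y v, ∑ i, ν i * x i = ∑ i, ν i * y i → f t x v = f t y v) →
      m ≤ ∫ x in Icc (0 : Vec d) 1, ∫ v, f 0 x v →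
      ∫ x in Icc (0 : Vec d) 1, ∫ v, f 0 x v ≤ M →
      ∫ x in Icc (0 : Vec d) 1, ∫ v, f 0 x v * nsq v ≤ M →
      ∫ x in Icc (0 : Vec d) 1, ∫ v, f 0 x v * Real.log (f 0 x v) ≤ M →
      ∀ A₀ : ℝ, (∀ x v, f 0 x v * (1 + nsq v) ^ p ≤ A₀) →
      ∀ t ∈ Ico 0 T, ∀ x v, f t x v * (1 + nsq v) ^ p ≤ K * (A₀ + 1) :=
  Pool.Agent.H48.PV.est_full hd hs h1 h2 h3 hb hν

end Pool.Agent.Results.MP_c15324_an.PlaneSymmetric
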